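import Pool.Agent.Helper68.LM2.St
import Pool.Agent.Helper42.LM.M_LC

/-!
# Project LM2: module LCG (layer cake formula and Marcinkiewicz interpolation in a general space)
-/

set_option autoImplicit false

open MeasureTheory Set Filter Topology
open scoped ENNReal RealInnerProductSpace

namespace Pool.Agent.Helper80.LM2

open Pool.Agent.Helper68.LM2 Pool.Agent.Helper68.LM

/-- layer cake -/
private theorem lcg {α : Type} [MeasurableSpace α] (μ : Measure α) [SFinite μ] (p : ℝ) (hp : 0 < p)
    (F : α → ℝ≥0∞) (hF : Measurable F) : ∫⁻ x, F x ^ p ∂μ =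
      ∫⁻ lam in Ioi (0 : ℝ), ENNReal.ofReal (p * lam ^ (p - 1)) *
        μ {x | ENNReal.ofReal lam < F x} := by
  have hms : MeasurableSet {q : α × ℝ | ENNReal.ofReal q.2 < F q.1} :=
    measurableSet_lt (ENNReal.measurable_ofReal.comp measurable_snd) (hF.comp measurable_fst)
  have h1 : ∫⁻ x, F x ^ p ∂μ = ∫⁻ x, (∫⁻ lam in Ioi (0 : ℝ), ENNReal.ofReal (p * lam ^ (p - 1)) *
      (if ENNReal.ofReal lam < F x then 1 else 0)) ∂μ :=
    lintegral_congr fun x => Pool.Agent.Helper42.LM.lc_point p hp (F x)
  rw [h1, lintegral_lintegral_swap]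
  · refine lintegral_congr fun lam => ?_
    rw [lintegral_const_mul' _ _ ENNReal.ofReal_ne_top]
    congr 1
    have : (fun x : α => (if ENNReal.ofReal lam < F x then (1 : ℝ≥0∞) else 0)) =
        indicator {x | ENNReal.ofReal lam < F x} (fun _ => 1) := by
      ext x
      by_cases h : ENNReal.ofReal lam < F x
      · simp [h]
      · simp [h]
    rw [this, lintegral_indicator (measurableSet_lt measurable_const hF)]
    simp
  · refine (Measurable.mul ?_ ?_).aemeasurable
    · exact ((measurable_snd.pow_const (p - 1)).const_mul p).ennreal_ofReal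
    · exact Measurable.ite hms measurable_const measurable_const

/-- Tonelli for the distribution function with weight `g` -/
private theorem swg {α : Type} [MeasurableSpace α] (μ : Measure α) [SFinite μ] (p s : ℝ)
    (hp : 1 < p) (hs : 0 < s) (g : α → ℝ≥0∞) (hg : Measurable g) :
    ∫⁻ lam in Ioi (0 : ℝ), ENNReal.ofReal ((p - 1) * lam ^ (p - 1 - 1)) *
      ∫⁻ x in {x | ENNReal.ofReal (s * lam) < g x}, g x ∂μ =
      ENNReal.ofReal (s ^ (1 - p)) * ∫⁻ x, g x ^ p ∂μ := by
  have hp1 : 0 < p - 1 := by linarith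
  have hms : MeasurableSet {q : ℝ × α | ENNReal.ofReal (s * q.1) < g q.2} :=
    measurableSet_lt (ENNReal.measurable_ofReal.comp (measurable_fst.const_mul s))
      (hg.comp measurable_snd)
  have h1 : ∀ lam : ℝ, ENNReal.ofReal ((p - 1) * lam ^ (p - 1 - 1)) *
      ∫⁻ x in {x | ENNReal.ofReal (s * lam) < g x}, g x ∂μ =
      ∫⁻ x, ENNReal.ofReal ((p - 1) * lam ^ (p - 1 - 1)) *
        ((if ENNReal.ofReal (s * lam) < g x then 1 else 0) * g x) ∂μ := by
    intro lam
    rw [lintegral_const_mul' _ _ ENNReal.ofReal_ne_top]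
    congr 1
    rw [← lintegral_indicator (measurableSet_lt measurable_const hg)]
    refine lintegral_congr fun x => ?_
    by_cases h : ENNReal.ofReal (s * lam) < g x
    · rw [indicator_of_mem (by exact h)]; simp [h]
    · rw [indicator_of_notMem (by exact h)]; simp [h]
  simp_rw [h1]
  rw [lintegral_lintegral_swap]
  · rw [← lintegral_const_mul' _ _ ENNReal.ofReal_ne_top]
    refine lintegral_congr fun x => ?_
    have hs0 : ENNReal.ofReal s ≠ 0 := by
      rw [Ne, ENNReal.ofReal_eq_zero]
      linarith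
    have h2 : ∀ lam : ℝ, ENNReal.ofReal ((p - 1) * lam ^ (p - 1 - 1)) *
        ((if ENNReal.ofReal (s * lam) < g x then 1 else 0) * g x) =
        (ENNReal.ofReal ((p - 1) * lam ^ (p - 1 - 1)) *
          (if ENNReal.ofReal lam < g x / ENNReal.ofReal s then 1 else 0)) * g x := by
      intro lam
      rw [mul_assoc]
      congr 2
      have : (ENNReal.ofReal (s * lam) < g x) ↔ ENNReal.ofReal lam < g x / ENNReal.ofReal s := by
        rw [ENNReal.ofReal_mul hs.le,
          ENNReal.lt_div_iff_mul_lt (Or.inl hs0) (Or.inl ENNReal.ofReal_ne_top), mul_comm]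
      simp only [this]
    simp_rw [h2]
    rw [lintegral_mul_const'' _ ?_, ← Pool.Agent.Helper42.LM.lc_point (p - 1) hp1]
    · rw [ENNReal.div_rpow_of_nonneg _ _ hp1.le, ENNReal.ofReal_rpow_of_pos hs]
      have e1 : g x ^ p = g x ^ (p - 1) * g x := by
        have : g x ^ p = g x ^ ((p - 1) + 1) := by
          congr 1
          ring
        rw [this, ENNReal.rpow_add_of_nonneg _ _ hp1.le zero_le_one, ENNReal.rpow_one]
      have e2 : ENNReal.ofReal (s ^ (1 - p)) = (ENNReal.ofReal (s ^ (p - 1)))⁻¹ := by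
        rw [← ENNReal.ofReal_inv_of_pos (Real.rpow_pos_of_pos hs _)]
        congr 1
        rw [← Real.rpow_neg hs.le]
        congr 1
        ring
      rw [e1, e2, ENNReal.div_eq_inv_mul]
      ring
    · refine (Measurable.mul ?_ ?_).aemeasurable
      · exact ((measurable_id.pow_const (p - 1 - 1)).const_mul (p - 1)).ennreal_ofReal
      · exact Measurable.ite (measurableSet_lt ENNReal.measurable_ofReal measurable_const)
          measurable_const measurable_const
  · refine (Measurable.mul ?_ (Measurable.mul ?_ ?_)).aemeasurable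
    · exact ((measurable_fst.pow_const (p - 1 - 1)).const_mul (p - 1)).ennreal_ofReal
    · exact Measurable.ite hms measurable_const measurable_const
    · exact hg.comp measurable_snd

/-- **StLCG** -/
theorem hLCG : StLCG := by
  refine ⟨fun α _ μ _ p hp F hF => lcg μ p hp F hF, fun p hp => ?_⟩
  have hp1 : 0 < p - 1 := by linarith
  refine ⟨p / (p - 1), by positivity, ?_⟩
  intro α _ μ _ g F s K hg hF hs hK hv
  rw [lcg μ p (by linarith) F hF]
  have h := swg μ p s hp hs g hg
  have e : ENNReal.ofReal (p / (p - 1) * (K * s ^ (1 - p))) * ∫⁻ x, g x ^ p ∂μ =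
      ENNReal.ofReal (p / (p - 1) * K) * (ENNReal.ofReal (s ^ (1 - p)) * ∫⁻ x, g x ^ p ∂μ) := by
    rw [← mul_assoc (ENNReal.ofReal (p / (p - 1) * K)), ← ENNReal.ofReal_mul (by positivity)]
    congr 2
    ring
  rw [e, ← h, ← lintegral_const_mul' _ _ ENNReal.ofReal_ne_top]
  refine setLIntegral_mono' measurableSet_Ioi fun lam hlam => ?_
  have hl : (0 : ℝ) < lam := hlam
  calc ENNReal.ofReal (p * lam ^ (p - 1)) * μ {x | ENNReal.ofReal lam < F x}
      ≤ ENNReal.ofReal (p * lam ^ (p - 1)) * (ENNReal.ofReal (K / lam) *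
        ∫⁻ x in {x | ENNReal.ofReal (s * lam) < g x}, g x ∂μ) := mul_le_mul_right (hv lam hlam) _
    _ = ENNReal.ofReal (p / (p - 1) * K) * (ENNReal.ofReal ((p - 1) * lam ^ (p - 1 - 1)) *
        ∫⁻ x in {x | ENNReal.ofReal (s * lam) < g x}, g x ∂μ) := by
      rw [← mul_assoc, ← mul_assoc, ← ENNReal.ofReal_mul (by positivity),
        ← ENNReal.ofReal_mul (by positivity)]
      congr 2
      have : lam ^ (p - 1 - 1) = lam ^ (p - 1) / lam := by
        rw [Real.rpow_sub hl, Real.rpow_one]
      rw [this]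
      field_simp

end Pool.Agent.Helper80.LM2
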